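import Mathlib
import Pool.Agent.Helper151.NS.VBridge

set_option autoImplicit false

namespace Pool.Agent.Helper288.NT

open Finset Pool.Agent.Helper151.NS Pool.Agent.Helper151.NS.VBridge

variable {m : ℕ} {r : Fin 3 → ZMod m} {B C : Finset (Fin 3 → ℕ)}

/-- the maximal cells of a staircase -/
def Mx (B : Finset (Fin 3 → ℕ)) : Finset (Fin 3 → ℕ) :=
  B.filter (fun u => ∀ i, u + ei i ∉ B)

lemma mem_Mx (u : Fin 3 → ℕ) : u ∈ Mx B ↔ u ∈ B ∧ ∀ i, u + ei i ∉ B := by
  unfold Mx
  rw [Finset.mem_filter]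

/-- the least level at which both planar neighbours have left the staircase -/
lemma exists_level (P : ℕ → ℕ → ℕ → Prop) (x y z : ℕ)
    (h1 : ¬ P (x + 1) y z) (h2 : ¬ P x (y + 1) z) :
    ∃ k, k ≤ z ∧ ¬ P (x + 1) y k ∧ ¬ P x (y + 1) k ∧
      (k = 0 ∨ P (x + 1) y (k - 1) ∨ (¬ P (x + 1) y (k - 1) ∧ P x (y + 1) (k - 1))) := by
  classical
  have hex : ∃ k, ¬ P (x + 1) y k ∧ ¬ P x (y + 1) k := ⟨z, h1, h2⟩
  refine ⟨Nat.find hex, Nat.find_min' hex ⟨h1, h2⟩, (Nat.find_spec hex).1,
    (Nat.find_spec hex).2, ?_⟩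
  rcases Nat.eq_zero_or_pos (Nat.find hex) with h0 | h0
  · exact Or.inl h0
  · right
    have := Nat.find_min hex (m := Nat.find hex - 1) (by omega)
    by_cases hc : P (x + 1) y (Nat.find hex - 1)
    · exact Or.inl hc
    · right
      refine ⟨hc, ?_⟩
      by_contra hcon
      exact this ⟨hc, hcon⟩

lemma exists_first (Q : ℕ → Prop) (y : ℕ) (h : ¬ Q y) :
    ∃ b, b ≤ y ∧ ¬ Q b ∧ ∀ b', b' < b → Q b' := by
  classical
  have hex : ∃ b, ¬ Q b := ⟨y, h⟩
  refine ⟨Nat.find hex, Nat.find_min' hex h, Nat.find_spec hex, ?_⟩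
  intro b' hb'
  have := Nat.find_min hex hb'
  push Not at this
  exact this

/-- the slot of a maximal cell -/
def Slot (B C : Finset (Fin 3 → ℕ)) (u : Fin 3 → ℕ) (c : (Fin 3 → ℕ) × Bool) : Prop :=
  c.1 ∈ C ∧ c.1 2 ≤ u 2 ∧
    ((c.2 = true ∧ c.1 0 = u 0 + 1 ∧ c.1 1 ≤ u 1 ∧ ¬ Pr B (u 0) (u 1 + 1) (c.1 2)) ∨
     (c.2 = false ∧ 0 < c.1 2 ∧ c.1 1 = u 1 + 1 ∧ c.1 0 ≤ u 0 ∧ ¬ Pr B (u 0 + 1) (u 1) (c.1 2)))

lemma pr_vec (u : Fin 3 → ℕ) : Pr B (u 0) (u 1) (u 2) ↔ u ∈ B := by
  unfold Pr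
  rw [vec]

lemma add_e0 (u : Fin 3 → ℕ) : u + ei 0 = ![u 0 + 1, u 1, u 2] := by
  funext i
  fin_cases i <;> simp [ei]

lemma add_e1 (u : Fin 3 → ℕ) : u + ei 1 = ![u 0, u 1 + 1, u 2] := by
  funext i
  fin_cases i <;> simp [ei]

lemma add_e2 (u : Fin 3 → ℕ) : u + ei 2 = ![u 0, u 1, u 2 + 1] := by
  funext i
  fin_cases i <;> simp [ei]

lemma pr_down (h : Stair m r B C) {x y z x' y' z' : ℕ} (hp : Pr B x y z) (hx : x' ≤ x)
    (hy : y' ≤ y) (hz : z' ≤ z) : Pr B x' y' z' := (tile h).down _ _ _ _ _ _ hp hx hy hz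

lemma mem_corner (h : Stair m r B C) (a b c : ℕ) (h0 : ¬ Pr B a b c)
    (h1 : 0 < a → Pr B (a - 1) b c) (h2 : 0 < b → Pr B a (b - 1) c)
    (h3 : 0 < c → Pr B a b (c - 1)) : (![a, b, c] : Fin 3 → ℕ) ∈ C := by
  rw [h.corner]
  refine ⟨h0, ?_⟩
  intro i hi
  have hi3 : i = 0 ∨ i = 1 ∨ i = 2 := by fin_cases i <;> simp
  rcases hi3 with rfl | rfl | rfl
  · have e : (![a, b, c] : Fin 3 → ℕ) - ei 0 = ![a - 1, b, c] := by
      funext i
      fin_cases i <;> simp [ei]
    rw [e]
    exact h1 (by simpa using hi)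
  · have e : (![a, b, c] : Fin 3 → ℕ) - ei 1 = ![a, b - 1, c] := by
      funext i
      fin_cases i <;> simp [ei]
    rw [e]
    exact h2 (by simpa using hi)
  · have e : (![a, b, c] : Fin 3 → ℕ) - ei 2 = ![a, b, c - 1] := by
      funext i
      fin_cases i <;> simp [ei]
    rw [e]
    exact h3 (by simpa using hi)

lemma exists_slot (h : Stair m r B C) (u : Fin 3 → ℕ) (hu : u ∈ Mx B) :
    ∃ c, Slot B C u c := by
  rw [mem_Mx] at hu
  obtain ⟨huB, hmax⟩ := hu
  have hP : Pr B (u 0) (u 1) (u 2) := (pr_vec u).2 huB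
  have n0 : ¬ Pr B (u 0 + 1) (u 1) (u 2) := by
    have := hmax 0
    rwa [add_e0] at this
  have n1 : ¬ Pr B (u 0) (u 1 + 1) (u 2) := by
    have := hmax 1
    rwa [add_e1] at this
  obtain ⟨k, hk, hk1, hk2, hcase⟩ := exists_level (Pr B) (u 0) (u 1) (u 2) n0 n1
  have hPk : Pr B (u 0) (u 1) k := pr_down h hP le_rfl le_rfl hk
  have left : (k = 0 ∨ Pr B (u 0 + 1) (u 1) (k - 1)) → ∃ c, Slot B C u c := by
    intro hor
    obtain ⟨b, hb, hb1, hb2⟩ := exists_first (fun b => Pr B (u 0 + 1) b k) (u 1) hk1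
    refine ⟨(![u 0 + 1, b, k], true), ?_, ?_, Or.inl ⟨rfl, ?_, ?_, ?_⟩⟩
    · refine mem_corner h _ _ _ hb1 ?_ ?_ ?_
      · intro _
        simp only [Nat.add_sub_cancel]
        exact pr_down h hPk le_rfl hb le_rfl
      · intro hb0
        exact hb2 _ (by omega)
      · intro hk0
        rcases hor with h0 | h0
        · omega
        · exact pr_down h h0 le_rfl hb le_rfl
    · simpa using hk
    · simp
    · simpa using hb
    · simpa using hk2
  rcases hcase with h0 | h0 | ⟨h0, h1⟩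
  · exact left (Or.inl h0)
  · exact left (Or.inr h0)
  · by_cases hkz : k = 0
    · exact left (Or.inl hkz)
    obtain ⟨a, ha, ha1, ha2⟩ := exists_first (fun a => Pr B a (u 1 + 1) k) (u 0) hk2
    refine ⟨(![a, u 1 + 1, k], false), ?_, ?_, Or.inr ⟨rfl, ?_, ?_, ?_, ?_⟩⟩
    · refine mem_corner h _ _ _ ha1 ?_ ?_ ?_
      · intro ha0
        exact ha2 _ (by omega)
      · intro _
        simp only [Nat.add_sub_cancel]
        exact pr_down h hPk ha le_rfl le_rfl
      · intro _
        exact pr_down h h1 ha le_rfl le_rfl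
    · simpa using hk
    · show 0 < k
      omega
    · simp
    · simpa using ha
    · simpa using hk1

lemma slot_inj (h : Stair m r B C) (u v : Fin 3 → ℕ) (hu : u ∈ Mx B) (hv : v ∈ Mx B)
    (c : (Fin 3 → ℕ) × Bool) (h1 : Slot B C u c) (h2 : Slot B C v c) : u = v := by
  rw [mem_Mx] at hu hv
  obtain ⟨huB, humax⟩ := hu
  obtain ⟨hvB, hvmax⟩ := hv
  have hPu : Pr B (u 0) (u 1) (u 2) := (pr_vec u).2 huB
  have hPv : Pr B (v 0) (v 1) (v 2) := (pr_vec v).2 hvB
  obtain ⟨-, c1, h1⟩ := h1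
  obtain ⟨-, c2, h2⟩ := h2
  have e01 : u 0 = v 0 ∧ u 1 = v 1 := by
    rcases h1 with ⟨s1, a1, b1, n1⟩ | ⟨s1, z1, a1, b1, n1⟩
    · rcases h2 with ⟨s2, a2, b2, n2⟩ | ⟨s2, z2, a2, b2, n2⟩
      · have e0 : u 0 = v 0 := by omega
        refine ⟨e0, ?_⟩
        by_contra hne
        rcases Nat.lt_or_gt_of_ne hne with hlt | hlt
        · exact n1 (pr_down h hPv (by omega) (by omega) c2)
        · exact n2 (pr_down h hPu (by omega) (by omega) c1)
      · rw [s1] at s2
        exact absurd s2 (by simp)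
    · rcases h2 with ⟨s2, a2, b2, n2⟩ | ⟨s2, z2, a2, b2, n2⟩
      · rw [s1] at s2
        exact absurd s2 (by simp)
      · have e1 : u 1 = v 1 := by omega
        refine ⟨?_, e1⟩
        by_contra hne
        rcases Nat.lt_or_gt_of_ne hne with hlt | hlt
        · exact n1 (pr_down h hPv (by omega) (by omega) c2)
        · exact n2 (pr_down h hPu (by omega) (by omega) c1)
  have nu : ¬ Pr B (u 0) (u 1) (u 2 + 1) := by
    have := humax 2
    rwa [add_e2] at this
  have nv : ¬ Pr B (v 0) (v 1) (v 2 + 1) := by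
    have := hvmax 2
    rwa [add_e2] at this
  have e2 : u 2 = v 2 := by
    by_contra hne
    rcases Nat.lt_or_gt_of_ne hne with hlt | hlt
    · exact nu (pr_down h hPv (by omega) (by omega) (by omega))
    · exact nv (pr_down h hPu (by omega) (by omega) (by omega))
  funext i
  fin_cases i
  · exact e01.1
  · exact e01.2
  · exact e2

/-- the number of maximal cells is less than the number of corners -/
theorem card_Mx (h : Stair m r B C) : (Mx B).card + 1 ≤ C.card := by
  classical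
  have hch : ∀ u : Fin 3 → ℕ, ∃ c : (Fin 3 → ℕ) × Bool, u ∈ Mx B → Slot B C u c := by
    intro u
    by_cases hu : u ∈ Mx B
    · obtain ⟨c, hc⟩ := exists_slot h u hu
      exact ⟨c, fun _ => hc⟩
    · exact ⟨(0, true), fun h => absurd h hu⟩
  choose F hF using hch
  set X : Finset (Fin 3 → ℕ) := C.filter (fun c => 0 < c 0) with hX
  set Y : Finset (Fin 3 → ℕ) := C.filter (fun c => 0 < c 1 ∧ 0 < c 2) with hY
  have hcard : (Mx B).card ≤ (X.image (fun c => (c, true)) ∪ Y.image (fun c => (c, false))).card := by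
    refine Finset.card_le_card_of_injOn F ?_ ?_
    · intro u hu
      have hs := hF u hu
      obtain ⟨hC, -, hor⟩ := hs
      rw [Finset.mem_coe, Finset.mem_union]
      rcases hor with ⟨s1, a1, b1, n1⟩ | ⟨s1, z1, a1, b1, n1⟩
      · left
        rw [Finset.mem_image]
        refine ⟨(F u).1, ?_, ?_⟩
        · rw [hX, Finset.mem_filter]
          exact ⟨hC, by omega⟩
        · rw [← s1]
      · right
        rw [Finset.mem_image]
        refine ⟨(F u).1, ?_, ?_⟩
        · rw [hY, Finset.mem_filter]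
          exact ⟨hC, by omega, z1⟩
        · rw [← s1]
    · intro u hu v hv huv
      refine slot_inj h u v hu hv (F u) (hF u hu) ?_
      rw [huv]
      exact hF v hv
  have h1 := Finset.card_union_le (X.image (fun c => (c, true))) (Y.image (fun c => (c, false)))
  have h2 : (X.image (fun c => ((c, true) : (Fin 3 → ℕ) × Bool))).card ≤ X.card :=
    Finset.card_image_le
  have h3 : (Y.image (fun c => ((c, false) : (Fin 3 → ℕ) × Bool))).card ≤ Y.card :=
    Finset.card_image_le
  have h4 := Finset.card_union_add_card_inter X Y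
  have h5 : (X ∩ Y).card ≤ 1 := by
    rw [Finset.card_le_one]
    intro u hu v hv
    rw [Finset.mem_inter, hX, hY, Finset.mem_filter, Finset.mem_filter] at hu hv
    refine full_unique h u v hu.1.1 hv.1.1 ?_ ?_
    · intro i
      have hi3 : i = 0 ∨ i = 1 ∨ i = 2 := by fin_cases i <;> simp
      rcases hi3 with rfl | rfl | rfl
      · exact hu.1.2
      · exact hu.2.2.1
      · exact hu.2.2.2
    · intro i
      have hi3 : i = 0 ∨ i = 1 ∨ i = 2 := by fin_cases i <;> simp
      rcases hi3 with rfl | rfl | rfl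
      · exact hv.1.2
      · exact hv.2.2.1
      · exact hv.2.2.2
  -- the two corners on the second and third axes are missed
  obtain ⟨A, hA⟩ := extents h
  have hz := zero_mem h
  have c1 := (VPlanar.axis_corner B C h.corner A hA hz 1 (Pi.single 1 (A 1))).2 rfl
  have c2 := (VPlanar.axis_corner B C h.corner A hA hz 2 (Pi.single 2 (A 2))).2 rfl
  have hsub : X ∪ Y ⊆ (C.erase (Pi.single 1 (A 1))).erase (Pi.single 2 (A 2)) := by
    intro u hu
    rw [Finset.mem_union, hX, hY, Finset.mem_filter, Finset.mem_filter] at hu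
    have huC : u ∈ C := by
      rcases hu with h | h
      · exact h.1
      · exact h.1
    rw [Finset.mem_erase, Finset.mem_erase]
    refine ⟨?_, ?_, huC⟩
    · rintro rfl
      rcases hu with hu | hu
      · simp at hu
      · simp at hu
    · rintro rfl
      rcases hu with hu | hu
      · simp at hu
      · simp at hu
  have h6 := Finset.card_le_card hsub
  have hne : (Pi.single 2 (A 2) : Fin 3 → ℕ) ≠ Pi.single 1 (A 1) := by
    intro he
    have := congrFun he 1
    have h0 := c1.2.1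
    simp at this h0
    omega
  rw [Finset.card_erase_of_mem (Finset.mem_erase.2 ⟨hne, c2.1⟩),
    Finset.card_erase_of_mem c1.1] at h6
  have h7 : 2 ≤ C.card := by
    have : ({Pi.single 2 (A 2), Pi.single 1 (A 1)} : Finset (Fin 3 → ℕ)) ⊆ C := by
      intro u hu
      rw [Finset.mem_insert, Finset.mem_singleton] at hu
      rcases hu with rfl | rfl
      · exact c2.1
      · exact c1.1
    have := Finset.card_le_card this
    rwa [Finset.card_pair hne] at this
  omega

end Pool.Agent.Helper288.NT
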