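import Mathlib
import Pool.Agent.Helper151.NS.Final
import Pool.Agent.Helper288.NT.MaxCount

set_option autoImplicit false

namespace Pool.Agent.Helper288.NT

open Finset Pool.Agent.Helper151.NS

/-- the staircase of the weight order, with the minimality of the weights -/
theorem tileOf (m : ℕ) (hm : 0 < m) (a : Fin 4 → ℕ) (ha : ∀ i, 0 < a i) :
    ∃ B C : Finset (Fin 3 → ℕ), Stair m (fun i => (a i.succ : ZMod m)) B C ∧
      ∀ u ∈ B, ∀ v, res m (fun i => (a i.succ : ZMod m)) v =
        res m (fun i => (a i.succ : ZMod m)) u → wt a u ≤ wt a v := by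
  classical
  have : NeZero m := ⟨hm.ne'⟩
  set r : Fin 3 → ZMod m := fun i => (a i.succ : ZMod m) with hr
  set f := res m r with hf
  let B0 : Set (Fin 3 → ℕ) := {u | ∀ v, f v = f u → ¬ R a v u}
  have inj0 : ∀ u ∈ B0, ∀ v ∈ B0, f u = f v → u = v := by
    intro u hu v hv huv
    exact R_trich a (ha 3) u v (hv u huv) (hu v huv.symm)
  have hfin : B0.Finite := by
    refine Set.Finite.of_finite_image (f := f) (Set.toFinite _) ?_
    intro u hu v hv huv
    exact inj0 u hu v hv huv
  let B := hfin.toFinset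
  have hB : ∀ u, u ∈ B ↔ ∀ v, f v = f u → ¬ R a v u := by
    intro u; rw [Set.Finite.mem_toFinset]; rfl
  have hsurj : ∀ v, ∃ u ∈ B, f u = f v := by
    intro v
    let S : Set (Fin 3 → ℕ) := {w | f w = f v}
    have hS : S.Nonempty := ⟨v, rfl⟩
    refine ⟨(R_wf a).min S hS, ?_, (R_wf a).min_mem S hS⟩
    rw [hB]
    intro w hw
    refine (R_wf a).not_lt_min S ?_
    show f w = f v
    rw [hw]
    exact (R_wf a).min_mem S hS
  have hdown : ∀ u ∈ B, ∀ v, v ≤ u → v ∈ B := by
    intro u hu v hvu
    rw [hB] at hu ⊢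
    intro w hw hR
    have hut : u = v + (u - v) := by
      funext i
      have hvi : v i ≤ u i := hvu i
      simp only [Pi.add_apply, Pi.sub_apply]
      omega
    have h1 := R_add a (u - v) hR
    rw [← hut] at h1
    refine hu _ ?_ h1
    rw [hf, res_add, ← hf, hw, hf, ← res_add, ← hut]
  let C : Finset (Fin 3 → ℕ) :=
    (((B ×ˢ (Finset.univ : Finset (Fin 3))).image (fun p => p.1 + ei p.2)).filter
      (fun u => u ∉ B ∧ ∀ i, 0 < u i → u - ei i ∈ B))
  have h0B : (0 : Fin 3 → ℕ) ∈ B := by
    obtain ⟨u, hu, _⟩ := hsurj 0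
    exact hdown u hu 0 (fun i => Nat.zero_le _)
  have hC : ∀ u, u ∈ C ↔ (u ∉ B ∧ ∀ i, 0 < u i → u - ei i ∈ B) := by
    intro u
    rw [Finset.mem_filter]
    refine ⟨fun h => h.2, fun h => ⟨?_, h⟩⟩
    have hu0 : ∃ i, 0 < u i := by
      by_contra hcon
      push Not at hcon
      apply h.1
      have : u = 0 := by
        funext i
        have := hcon i
        simpa using this
      rw [this]; exact h0B
    obtain ⟨i, hi⟩ := hu0
    rw [Finset.mem_image]
    refine ⟨(u - ei i, i), ?_, ?_⟩
    · rw [Finset.mem_product]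
      exact ⟨h.2 i hi, Finset.mem_univ _⟩
    · funext j
      simp only [Pi.add_apply, Pi.sub_apply, ei, Pi.single_apply]
      split_ifs with hj
      · subst hj; omega
      · omega
  refine ⟨B, C, ⟨hdown, fun u hu v hv huv => inj0 u ((hB u).mp hu) v
    ((hB v).mp hv) huv, hsurj, hC⟩, ?_⟩
  intro u hu v hv
  have h1 := (hB u).1 hu v hv
  unfold R at h1
  omega

/-- membership in the semigroup generated by `a` -/
lemma mem_closure_iff (a : Fin 4 → ℕ) (x : ℕ) :
    x ∈ AddSubmonoid.closure (Set.range a) ↔ ∃ (j : ℕ) (w : Fin 3 → ℕ), x = j * a 0 + wt a w := by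
  constructor
  · intro hx
    induction hx using AddSubmonoid.closure_induction with
    | mem x hx =>
      obtain ⟨i, rfl⟩ := hx
      refine Fin.cases ?_ (fun i => ?_) i
      · exact ⟨1, 0, by simp [wt]⟩
      · refine ⟨0, ei i, ?_⟩
        have : wt a (ei i) = a i.succ := by
          unfold wt ei
          rw [Finset.sum_eq_single i]
          · simp
          · intro l _ hl
            rw [Pi.single_apply, if_neg hl, zero_mul]
          · intro h; exact absurd (Finset.mem_univ i) h
        rw [this]; simp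
    | zero => exact ⟨0, 0, by simp [wt]⟩
    | add x y _ _ hx hy =>
      obtain ⟨j, w, rfl⟩ := hx
      obtain ⟨j', w', rfl⟩ := hy
      refine ⟨j + j', w + w', ?_⟩
      rw [wt_add]; ring
  · rintro ⟨j, w, rfl⟩
    refine add_mem ?_ ?_
    · rw [← smul_eq_mul]
      exact AddSubmonoid.nsmul_mem _ (AddSubmonoid.subset_closure (Set.mem_range_self 0)) _
    · unfold wt
      refine AddSubmonoid.sum_mem _ ?_
      intro i _
      rw [← smul_eq_mul]
      exact AddSubmonoid.nsmul_mem _ (AddSubmonoid.subset_closure (Set.mem_range_self i.succ)) _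

lemma wt_ei (a : Fin 4 → ℕ) (i : Fin 3) : wt a (ei i) = a i.succ := by
  unfold wt ei
  rw [Finset.sum_eq_single i]
  · simp
  · intro l _ hl
    rw [Pi.single_apply, if_neg hl, zero_mul]
  · intro h; exact absurd (Finset.mem_univ i) h

/-- the pseudo-Frobenius numbers -/
def PF (G : AddSubmonoid ℕ) : Set ℤ :=
  {p | (¬ ∃ n ∈ G, (n : ℤ) = p) ∧ ∀ c ∈ G, c ≠ 0 → ∃ n ∈ G, (n : ℤ) = p + c}

/-- upper bound of the type by the number of maximal cells -/
theorem type_le (m : ℕ) (hm : 0 < m) (a : Fin 4 → ℕ) (ha0 : a 0 = m) (ha : ∀ i, 0 < a i)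
    (B C : Finset (Fin 3 → ℕ)) (h : Stair m (fun i => (a i.succ : ZMod m)) B C)
    (hmin : ∀ u ∈ B, ∀ v, res m (fun i => (a i.succ : ZMod m)) v =
        res m (fun i => (a i.succ : ZMod m)) u → wt a u ≤ wt a v) :
    (PF (AddSubmonoid.closure (Set.range a))).encard ≤ ((Mx B).card : ℕ∞) := by
  classical
  have hm0 : (a 0 : ℕ) ∈ AddSubmonoid.closure (Set.range a) :=
    AddSubmonoid.subset_closure ⟨0, rfl⟩
  -- every pseudo-Frobenius number is the weight of a maximal cell minus m
  have key : ∀ p ∈ PF (AddSubmonoid.closure (Set.range a)), ∃ u ∈ Mx B, (p : ℤ) = wt a u - m := by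
    intro p hp
    obtain ⟨hp1, hp2⟩ := hp
    obtain ⟨w, hw, hwp⟩ := hp2 (a 0) hm0 (by rw [ha0]; omega)
    rw [ha0] at hwp
    obtain ⟨j, v, hv⟩ := (mem_closure_iff a w).1 hw
    obtain ⟨u, huB, hu⟩ := h.surj v
    have hle := hmin u huB v hu.symm
    have hmod : wt a u ≡ wt a v [MOD m] := by
      rw [res_wt, res_wt] at hu
      exact (ZMod.natCast_eq_natCast_iff _ _ _).mp hu
    obtain ⟨t, ht⟩ := (Nat.modEq_iff_dvd' hle).mp hmod
    have hwu : (w : ℤ) = wt a u := by
      by_contra hne
      apply hp1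
      have hjt : 0 < j + t := by
        by_contra hcon
        have hj : j = 0 := by omega
        have ht0 : t = 0 := by omega
        subst hj ht0
        apply hne
        have : w = wt a u := by
          rw [hv]; simp at ht ⊢; omega
        exact_mod_cast this
      refine ⟨(j + t - 1) * a 0 + wt a u, (mem_closure_iff a _).2 ⟨_, _, rfl⟩, ?_⟩
      have h1 : w = (j + t) * m + wt a u := by
        have : wt a v = wt a u + m * t := by omega
        rw [hv, this, ha0]; ring
      obtain ⟨s, hs⟩ : ∃ s, j + t = s + 1 := ⟨j + t - 1, by omega⟩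
      rw [hs] at h1 ⊢
      rw [ha0]
      simp only [Nat.add_sub_cancel]
      have h2 : (w : ℤ) = ((s + 1 : ℕ) : ℤ) * m + wt a u := by exact_mod_cast h1
      push_cast at h2 ⊢
      linarith
    refine ⟨u, ?_, by linarith⟩
    rw [mem_Mx]
    refine ⟨huB, ?_⟩
    intro i hi
    obtain ⟨n, hn, hnp⟩ := hp2 (a i.succ) (AddSubmonoid.subset_closure ⟨_, rfl⟩)
      (by have := ha i.succ; omega)
    obtain ⟨j', v', hv'⟩ := (mem_closure_iff a n).1 hn
    have hsum : wt a (u + ei i) = (j' + 1) * m + wt a v' := by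
      rw [wt_add, wt_ei]
      have h2 : (n : ℤ) = ((j' * a 0 + wt a v' : ℕ) : ℤ) := by exact_mod_cast hv'
      have h3 : ((wt a u + a i.succ : ℕ) : ℤ) = (((j' + 1) * m + wt a v' : ℕ) : ℤ) := by
        rw [ha0] at h2
        push_cast at h2 ⊢
        linarith
      exact_mod_cast h3
    have hres : res m (fun i => (a i.succ : ZMod m)) v' =
        res m (fun i => (a i.succ : ZMod m)) (u + ei i) := by
      rw [res_wt, res_wt, hsum]
      push_cast
      simp
    have := hmin _ hi v' hres
    rw [hsum] at this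
    have h5 : 0 < (j' + 1) * m := by positivity
    omega
  have himg : PF (AddSubmonoid.closure (Set.range a)) ⊆
      (fun u : Fin 3 → ℕ => ((wt a u : ℤ) - m)) '' ((Mx B : Finset (Fin 3 → ℕ)) : Set (Fin 3 → ℕ)) := by
    intro p hp
    obtain ⟨u, hu, hpu⟩ := key p hp
    exact ⟨u, by exact_mod_cast hu, hpu.symm⟩
  refine (Set.encard_le_encard himg).trans ((Set.encard_image_le _ _).trans ?_)
  rw [Set.encard_coe_eq_coe_finsetCard]

/-- lower bound of the type from a family of maximal standard monomials -/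
theorem le_type (m : ℕ) (hm : 0 < m) (a : Fin 4 → ℕ) (ha0 : a 0 = m)
    (P : (Fin 3 → ℕ) → Prop) (hP0 : P 0) (hstep : Step m a P)
    (hinj : ∀ u v, P u → P v → wt a u ≡ wt a v [MOD m] → u = v)
    (E : Finset (Fin 3 → ℕ)) (hE1 : ∀ u ∈ E, P u) (hE2 : ∀ u ∈ E, ∀ i, ¬ P (u + ei i)) :
    (E.card : ℕ∞) ≤ (PF (AddSubmonoid.closure (Set.range a))).encard := by
  classical
  have hsub : ((fun u : Fin 3 → ℕ => ((wt a u : ℤ) - m)) '' (E : Set (Fin 3 → ℕ))) ⊆
      PF (AddSubmonoid.closure (Set.range a)) := by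
    rintro p ⟨u, hu, rfl⟩
    have huE : u ∈ E := by exact_mod_cast hu
    refine ⟨?_, ?_⟩
    · rintro ⟨n, hn, hnp⟩
      obtain ⟨j, v, hv⟩ := (mem_closure_iff a n).1 hn
      have h1 : wt a u = deg a (emb (j + 1) v) := by
        rw [deg_emb, ha0]
        have h2 : ((wt a u : ℕ) : ℤ) = (((j + 1) * m + wt a v : ℕ) : ℤ) := by
          rw [ha0] at hv
          have h3 : (n : ℤ) = ((j * m + wt a v : ℕ) : ℤ) := by exact_mod_cast hv
          push_cast at h3 ⊢
          linarith
        exact_mod_cast h2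
      have h4 := uf m hm a ha0 P hP0 hstep hinj u (hE1 u huE) _ h1.symm
      have h5 := DFunLike.congr_fun h4 0
      rw [emb_zero, emb_zero] at h5
      omega
    · -- adding a generator
      have hgen : ∀ i : Fin 4, ∃ n ∈ AddSubmonoid.closure (Set.range a),
          (n : ℤ) = (wt a u : ℤ) - m + a i := by
        intro i
        refine Fin.cases ?_ (fun i => ?_) i
        · refine ⟨wt a u, (mem_closure_iff a _).2 ⟨0, u, by simp⟩, ?_⟩
          rw [ha0]; ring
        · obtain ⟨u', hu', hor⟩ := hstep u (hE1 u huE) i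
          rcases hor with h1 | ⟨t, ht, h1⟩
          · rw [h1] at hu'
            exact absurd hu' (hE2 u huE i)
          · rw [wt_add, wt_ei] at h1
            obtain ⟨t', rfl⟩ : ∃ t', t = t' + 1 := ⟨t - 1, by omega⟩
            refine ⟨t' * a 0 + wt a u', (mem_closure_iff a _).2 ⟨_, _, rfl⟩, ?_⟩
            have h2 : ((wt a u + a i.succ : ℕ) : ℤ) = ((wt a u' + m * (t' + 1) : ℕ) : ℤ) := by
              exact_mod_cast h1
            rw [ha0]
            push_cast at h2 ⊢
            linarith
      intro c hc hc0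
      -- write c as a generator plus an element
      have hdec : ∀ c ∈ AddSubmonoid.closure (Set.range a), c ≠ 0 →
          ∃ i : Fin 4, ∃ c' ∈ AddSubmonoid.closure (Set.range a), c = a i + c' := by
        intro c hc
        induction hc using AddSubmonoid.closure_induction with
        | mem x hx =>
          intro _
          obtain ⟨i, rfl⟩ := hx
          exact ⟨i, 0, zero_mem _, by simp⟩
        | zero => intro h; exact absurd rfl h
        | add x y hx hy ihx ihy =>
          intro hne
          by_cases hx0 : x = 0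
          · subst hx0
            have hy0 : y ≠ 0 := by simpa using hne
            obtain ⟨i, c', hc', he⟩ := ihy hy0
            exact ⟨i, c', hc', by rw [zero_add, he]⟩
          · obtain ⟨i, c', hc', he⟩ := ihx hx0
            exact ⟨i, c' + y, add_mem hc' hy, by rw [he]; ring⟩
      obtain ⟨i, c', hc', he⟩ := hdec c hc hc0
      obtain ⟨n, hn, hnp⟩ := hgen i
      refine ⟨n + c', add_mem hn hc', ?_⟩
      rw [he]
      push_cast
      rw [hnp]
      ring
  have hcard : (E.card : ℕ∞) =
      ((fun u : Fin 3 → ℕ => ((wt a u : ℤ) - m)) '' (E : Set (Fin 3 → ℕ))).encard := by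
    rw [Set.InjOn.encard_image, Set.encard_coe_eq_coe_finsetCard]
    intro u hu v hv huv
    have h1 : wt a u = wt a v := by
      simp only at huv
      have : (wt a u : ℤ) = wt a v := by linarith
      exact_mod_cast this
    exact hinj u v (hE1 u (by exact_mod_cast hu)) (hE1 v (by exact_mod_cast hv)) (by rw [h1])
  rw [hcard]
  exact Set.encard_le_encard hsub

end Pool.Agent.Helper288.NT
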