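import Mathlib
import Pool.Agent.Helper288.NT.Glue

set_option autoImplicit false

namespace Pool.Agent.Helper288.NT

open Finset Pool.Agent.Helper151.NS

/-- maximal cells of the first family -/
def M1 (k j : ℕ) : Finset (Fin 3 → ℕ) :=
  (Finset.range (k - 1)).image (fun l => ![l + 1, 0, k - 2 - l]) ∪
    (Finset.range k).image (fun z => ![0, (if z < j then k - z else k - 1 - z), z])

lemma card_M1 (k j : ℕ) (hk : 2 ≤ k) : (M1 k j).card = 2 * k - 1 := by
  unfold M1
  have h1 : ((Finset.range (k - 1)).image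
      (fun l => (![l + 1, 0, k - 2 - l] : Fin 3 → ℕ))).card = k - 1 := by
    rw [Finset.card_image_of_injective, Finset.card_range]
    intro a b hab
    have := congrFun hab 0
    simpa using this
  have h2 : ((Finset.range k).image (fun z =>
      (![0, (if z < j then k - z else k - 1 - z), z] : Fin 3 → ℕ))).card = k := by
    rw [Finset.card_image_of_injective, Finset.card_range]
    intro a b hab
    have := congrFun hab 2
    simpa using this
  rw [Finset.card_union_of_disjoint, h1, h2]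
  · omega
  · rw [Finset.disjoint_left]
    intro u hu hu'
    rw [Finset.mem_image] at hu hu'
    obtain ⟨l, hl, rfl⟩ := hu
    obtain ⟨z, hz, h⟩ := hu'
    have := congrFun h 0
    simp at this

lemma M1_mem (k j : ℕ) (hk : 2 ≤ k) (hj : j ≤ k) (u : Fin 3 → ℕ) (hu : u ∈ M1 k j) :
    P1 k j u := by
  unfold M1 at hu
  simp only [Finset.mem_union, Finset.mem_image, Finset.mem_range] at hu
  rcases hu with ⟨l, hl, rfl⟩ | ⟨z, hz, rfl⟩
  · rw [P1_vec]; omega
  · rw [P1_vec]
    split_ifs <;> omega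

lemma M1_max (k j : ℕ) (hk : 2 ≤ k) (hj : j ≤ k) (u : Fin 3 → ℕ) (hu : u ∈ M1 k j) (i : Fin 3) :
    ¬ P1 k j (u + ei i) := by
  unfold M1 at hu
  simp only [Finset.mem_union, Finset.mem_image, Finset.mem_range] at hu
  have hi3 : i = 0 ∨ i = 1 ∨ i = 2 := by fin_cases i <;> simp
  rcases hu with ⟨l, hl, rfl⟩ | ⟨z, hz, rfl⟩
  · rcases hi3 with rfl | rfl | rfl
    · rw [ei0, P1_vec]; omega
    · rw [ei1, P1_vec]; omega
    · rw [ei2, P1_vec]; omega
  · rcases hi3 with rfl | rfl | rfl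
    · rw [ei0, P1_vec]
      rintro ⟨h1, h2, h3⟩
      rcases h1 with h1 | h1
      · omega
      · split_ifs at h1 <;> omega
    · rw [ei1, P1_vec]
      split_ifs <;> omega
    · rw [ei2, P1_vec]
      split_ifs <;> omega

/-- maximal cells of the second family -/
def M2 (k j : ℕ) : Finset (Fin 3 → ℕ) :=
  (Finset.range k).image (fun l => ![l + 1, k - 1 - l, 0]) ∪
    (Finset.range k).image (fun y => ![0, (if y < j then k - y else k - 1 - y), y])

lemma card_M2 (k j : ℕ) : (M2 k j).card = 2 * k := by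
  unfold M2
  have h1 : ((Finset.range k).image
      (fun l => (![l + 1, k - 1 - l, 0] : Fin 3 → ℕ))).card = k := by
    rw [Finset.card_image_of_injective, Finset.card_range]
    intro a b hab
    have := congrFun hab 0
    simpa using this
  have h2 : ((Finset.range k).image (fun y =>
      (![0, (if y < j then k - y else k - 1 - y), y] : Fin 3 → ℕ))).card = k := by
    rw [Finset.card_image_of_injective, Finset.card_range]
    intro a b hab
    have := congrFun hab 2
    simpa using this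
  rw [Finset.card_union_of_disjoint, h1, h2]
  · omega
  · rw [Finset.disjoint_left]
    intro u hu hu'
    rw [Finset.mem_image] at hu hu'
    obtain ⟨l, hl, rfl⟩ := hu
    obtain ⟨z, hz, h⟩ := hu'
    have := congrFun h 0
    simp at this

lemma M2_mem (k j : ℕ) (hk : 2 ≤ k) (hj1 : 1 ≤ j) (hj : j ≤ k) (u : Fin 3 → ℕ) (hu : u ∈ M2 k j) :
    P2 k j u := by
  unfold M2 at hu
  simp only [Finset.mem_union, Finset.mem_image, Finset.mem_range] at hu
  rcases hu with ⟨l, hl, rfl⟩ | ⟨z, hz, rfl⟩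
  · rw [P2_vec]; omega
  · rw [P2_vec]
    split_ifs <;> omega

lemma M2_max (k j : ℕ) (hk : 2 ≤ k) (hj1 : 1 ≤ j) (hj : j ≤ k) (u : Fin 3 → ℕ) (hu : u ∈ M2 k j)
    (i : Fin 3) : ¬ P2 k j (u + ei i) := by
  unfold M2 at hu
  simp only [Finset.mem_union, Finset.mem_image, Finset.mem_range] at hu
  have hi3 : i = 0 ∨ i = 1 ∨ i = 2 := by fin_cases i <;> simp
  rcases hu with ⟨l, hl, rfl⟩ | ⟨z, hz, rfl⟩
  · rcases hi3 with rfl | rfl | rfl
    · rw [ei0, P2_vec]; omega
    · rw [ei1, P2_vec]; omega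
    · rw [ei2, P2_vec]; omega
  · rcases hi3 with rfl | rfl | rfl
    · rw [ei0, P2_vec]
      rintro ⟨h1, h2, h3⟩
      rcases h1 with h1 | h1
      · omega
      · split_ifs at h2 <;> omega
    · rw [ei1, P2_vec]
      split_ifs <;> omega
    · rw [ei2, P2_vec]
      split_ifs <;> omega

lemma zero_vec : (0 : Fin 3 → ℕ) = ![0, 0, 0] := vec_eq _

theorem family1 (m k j : ℕ) (hk : 2 ≤ k) (hj : j ≤ k) (hm : m = k * k + j) :
    ∃ a : Fin 4 → ℕ, StrictMono a ∧ a 0 = m ∧ Finset.univ.gcd a = 1 ∧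
      (∀ i : Fin 4, a i ∉ AddSubmonoid.closure (a '' {j : Fin 4 | j ≠ i})) ∧
      ((2 * k - 1 : ℕ) : ℕ∞) ≤ (PF (AddSubmonoid.closure (Set.range a))).encard := by
  have hm0 : 0 < m := by
    rw [hm]
    have := Nat.mul_le_mul hk hk
    omega
  have hkm : k < m := by
    rw [hm]
    have := Nat.mul_le_mul_right k hk
    omega
  have hmono : StrictMono (A1 m k) := by
    rw [Fin.strictMono_iff_lt_succ]
    intro i
    fin_cases i
    · show m < 2 * m + 1
      omega
    · show 2 * m + 1 < 2 * m + k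
      omega
    · show 2 * m + k < 3 * m + k + 1
      omega
  have hP0 : P1 k j 0 := by
    rw [zero_vec, P1_vec]; omega
  have hP1 : ∀ i, P1 k j (ei i) := by
    intro i
    have h1 : ei i = ![0, 0, 0] + ei i := by
      rw [← zero_vec, zero_add]
    have hi3 : i = 0 ∨ i = 1 ∨ i = 2 := by fin_cases i <;> simp
    rw [h1]
    rcases hi3 with rfl | rfl | rfl
    · rw [ei0, P1_vec]; omega
    · rw [ei1, P1_vec]; omega
    · rw [ei2, P1_vec]; omega
  refine ⟨A1 m k, hmono, rfl, ?_, ?_, ?_⟩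
  · have h0 : Finset.univ.gcd (A1 m k) ∣ m := Finset.gcd_dvd (Finset.mem_univ (0 : Fin 4))
    have h1 : Finset.univ.gcd (A1 m k) ∣ 2 * m + 1 := Finset.gcd_dvd (Finset.mem_univ (1 : Fin 4))
    have h2 : Finset.univ.gcd (A1 m k) ∣ 2 * m := Dvd.dvd.mul_left h0 2
    have h3 := (Nat.dvd_add_right h2).mp h1
    exact Nat.dvd_one.mp h3
  · exact minimal m hm0 _ rfl hmono (P1 k j) hP0 (step1 m k j hk hj hm)
      (fun u v hu hv h => inj1 m k j hk hj hm u v hu hv h) hP1
  · rw [← card_M1 k j hk]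
    exact le_type m hm0 _ rfl (P1 k j) hP0 (step1 m k j hk hj hm)
      (fun u v hu hv h => inj1 m k j hk hj hm u v hu hv h) (M1 k j) (M1_mem k j hk hj)
      (M1_max k j hk hj)

theorem family2 (n k j : ℕ) (hk : 2 ≤ k) (hj1 : 1 ≤ j) (hj : j ≤ k) (hm : n + 1 = k * k + k + j) :
    ∃ a : Fin 4 → ℕ, StrictMono a ∧ a 0 = n + 1 ∧ Finset.univ.gcd a = 1 ∧
      (∀ i : Fin 4, a i ∉ AddSubmonoid.closure (a '' {j : Fin 4 | j ≠ i})) ∧
      ((2 * k : ℕ) : ℕ∞) ≤ (PF (AddSubmonoid.closure (Set.range a))).encard := by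
  have hm0 : 0 < n + 1 := by omega
  have hn : 0 < n := by
    have := Nat.mul_le_mul hk hk
    omega
  have hmono : StrictMono (A2 n k) := by
    rw [Fin.strictMono_iff_lt_succ]
    intro i
    fin_cases i
    · show n + 1 < 2 * n + 1
      omega
    · show 2 * n + 1 < 2 * n + 2 + k
      omega
    · show 2 * n + 2 + k < 2 * n + 3 + k
      omega
  have hP0 : P2 k j 0 := by
    rw [zero_vec, P2_vec]; omega
  have hP1 : ∀ i, P2 k j (ei i) := by
    intro i
    have h1 : ei i = ![0, 0, 0] + ei i := by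
      rw [← zero_vec, zero_add]
    have hi3 : i = 0 ∨ i = 1 ∨ i = 2 := by fin_cases i <;> simp
    rw [h1]
    rcases hi3 with rfl | rfl | rfl
    · rw [ei0, P2_vec]; omega
    · rw [ei1, P2_vec]; omega
    · rw [ei2, P2_vec]; omega
  refine ⟨A2 n k, hmono, rfl, ?_, ?_, ?_⟩
  · have h0 : Finset.univ.gcd (A2 n k) ∣ n + 1 := Finset.gcd_dvd (Finset.mem_univ (0 : Fin 4))
    have h1 : Finset.univ.gcd (A2 n k) ∣ 2 * n + 1 := Finset.gcd_dvd (Finset.mem_univ (1 : Fin 4))
    have h2 : Finset.univ.gcd (A2 n k) ∣ 2 * (n + 1) := Dvd.dvd.mul_left h0 2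
    have h3 : 2 * (n + 1) = (2 * n + 1) + 1 := by ring
    rw [h3] at h2
    exact Nat.dvd_one.mp ((Nat.dvd_add_right h1).mp h2)
  · exact minimal (n + 1) hm0 _ rfl hmono (P2 k j) hP0 (step2 n k j hk hj1 hj hm)
      (fun u v hu hv h => inj2 n k j hm u v hu hv h) hP1
  · rw [← card_M2 k j]
    exact le_type (n + 1) hm0 _ rfl (P2 k j) hP0 (step2 n k j hk hj1 hj hm)
      (fun u v hu hv h => inj2 n k j hm u v hu hv h) (M2 k j) (M2_mem k j hk hj1 hj)
      (M2_max k j hk hj1 hj)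

theorem exists_large (m : ℕ) (hm : 3 < m) :
    ∃ a : Fin 4 → ℕ, StrictMono a ∧ a 0 = m ∧ Finset.univ.gcd a = 1 ∧
      (∀ i : Fin 4, a i ∉ AddSubmonoid.closure (a '' {j : Fin 4 | j ≠ i})) ∧
      ((Nat.sqrt (4 * m) - 1 : ℕ) : ℕ∞) ≤ (PF (AddSubmonoid.closure (Set.range a))).encard := by
  have hk1 := Nat.sqrt_le m
  have hk3 := Nat.lt_succ_sqrt m
  have hk4 : 2 ≤ Nat.sqrt m := by
    rw [Nat.le_sqrt]; omega
  set k := Nat.sqrt m with hk
  obtain ⟨r, hr⟩ : ∃ r, m = k * k + r := ⟨m - k * k, by omega⟩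
  have hr2 : r ≤ 2 * k := by
    have : Nat.succ k * Nat.succ k = k * k + 2 * k + 1 := by
      simp only [Nat.succ_eq_add_one]; ring
    omega
  by_cases hrk : r ≤ k
  · obtain ⟨a, h1, h2, h3, h4, h5⟩ := family1 m k r hk4 hrk hr
    refine ⟨a, h1, h2, h3, h4, ?_⟩
    have h6 : Nat.sqrt (4 * m) = 2 * k := by
      have e : 4 * m = 2 * k * (2 * k) + 4 * r := by rw [hr]; ring
      rw [e, Nat.sqrt_add_eq _ (by omega)]
    rw [h6]
    exact h5
  · obtain ⟨n, hn⟩ : ∃ n, m = n + 1 := ⟨m - 1, by omega⟩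
    obtain ⟨j, hj⟩ : ∃ j, r = k + j := ⟨r - k, by omega⟩
    obtain ⟨a, h1, h2, h3, h4, h5⟩ := family2 n k j hk4 (by omega) (by omega) (by omega)
    refine ⟨a, h1, by omega, h3, h4, ?_⟩
    have h6 : Nat.sqrt (4 * m) = 2 * k + 1 := by
      have e : 4 * m = (2 * k + 1) * (2 * k + 1) + (4 * j - 1) := by
        obtain ⟨j', rfl⟩ : ∃ j', j = j' + 1 := ⟨j - 1, by omega⟩
        have : 4 * (j' + 1) - 1 = 4 * j' + 3 := by omega
        rw [hr, hj, this]; ring
      rw [e, Nat.sqrt_add_eq _ (by omega)]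
    rw [h6]
    exact h5

end Pool.Agent.Helper288.NT
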